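import Pool.Agent.Helper60.PlzA.Goals

/-!
# Project PLA, packet MONO

Monotonicity of `Cov` in `t`.
-/

set_option autoImplicit false

namespace Pool.Agent.Helper83.PlzA

open Finset Pool.Agent.Helper93.Plz Pool.Agent.Helper60.PlzA

open scoped Classical

lemma e2_eq {V : Type} [Fintype V] (G : SimpleGraph V) (Z : Finset V) :
    (e2 G Z : ℝ) = ∑ v ∈ Z, ∑ w ∈ Z, if G.Adj v w then (1 : ℝ) else 0 := by
  unfold e2 eb
  rw [Finset.card_filter, Finset.sum_product]
  push_cast
  rfl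

theorem mono (h1 : S_SAMP) : S_MONO := by
  intro t t' c ht htt' hc hcov V inst G S
  obtain ⟨P, hPS, hPl, hP⟩ := hcov V inst G S
  refine ⟨P, hPS, hPl, fun Z hZ => ?_⟩
  have ht0 : (0 : ℝ) < t := by exact_mod_cast ht
  have ht'0 : (0 : ℝ) < t' := by exact_mod_cast lt_of_lt_of_le ht htt'
  have hle : (t : ℝ) ≤ t' := by exact_mod_cast htt'
  set q : ℝ := (t : ℝ) / t' with hq
  have hq0 : 0 ≤ q := by positivity
  have hq1 : q ≤ 1 := (div_le_one ht'0).2 hle
  obtain ⟨Z', hZ', hU⟩ := h1 V inst G t (fun v => if v ∈ Z then q else 0)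
    (fun v => by split_ifs <;> [exact hq0; exact le_rfl])
    (fun v => by split_ifs <;> [exact hq1; exact zero_le_one])
  have hsub : Z' ⊆ Z := by
    intro v hv
    by_contra hvZ
    exact hZ' v hv (if_neg hvZ)
  have hs1 : ∑ v, (if v ∈ Z then q else 0) = q * Z.card := by
    rw [Finset.sum_ite_mem, Finset.univ_inter, Finset.sum_const, nsmul_eq_mul, mul_comm]
  have hs2 : ∑ v, ∑ w ∈ nbs G v, (if v ∈ Z then q else 0) * (if w ∈ Z then q else 0) =
      q ^ 2 * e2 G Z := by
    rw [e2_eq, Finset.mul_sum]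
    rw [← Finset.sum_subset (Finset.subset_univ Z)]
    · refine Finset.sum_congr rfl fun v hv => ?_
      rw [if_pos hv, Finset.mul_sum]
      unfold nbs
      rw [Finset.sum_filter]
      rw [← Finset.sum_subset (Finset.subset_univ Z)]
      · refine Finset.sum_congr rfl fun w hw => ?_
        rw [if_pos hw]
        split_ifs <;> ring
      · intro w _ hw
        rw [if_neg hw, mul_zero, ite_self]
    · intro v _ hv
      refine Finset.sum_eq_zero fun w _ => ?_
      rw [if_neg hv, zero_mul]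
  simp only [hs1, hs2] at hU
  have hkey : q ^ 2 * UU G t' Z ≤ UU G t Z' := by
    refine le_trans (le_of_eq ?_) hU
    unfold UU
    rw [hq]
    field_simp
  have h2 := hP Z' (hsub.trans hZ)
  have h3 : c * (q ^ 2 * UU G t' Z) ≤ (t : ℝ) ^ 2 * P.card :=
    (mul_le_mul_of_nonneg_left hkey hc).trans h2
  have h4 : c * UU G t' Z = ((t' : ℝ) ^ 2 / t ^ 2) * (c * (q ^ 2 * UU G t' Z)) := by
    rw [hq]
    field_simp
  rw [h4]
  calc ((t' : ℝ) ^ 2 / t ^ 2) * (c * (q ^ 2 * UU G t' Z))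
      ≤ ((t' : ℝ) ^ 2 / t ^ 2) * ((t : ℝ) ^ 2 * P.card) :=
        mul_le_mul_of_nonneg_left h3 (by positivity)
    _ = (t' : ℝ) ^ 2 * P.card := by
        field_simp

end Pool.Agent.Helper83.PlzA
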